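import Pool.Agent.Helper77.SD.St

/-! # Project SD, module MEM: `(tf, tF)` is in `H¹` -/

set_option autoImplicit false

namespace Pool.Agent.Helper93.SD

open Pool.Agent.Helper77.SD
open MeasureTheory Metric Set Filter Topology
open scoped Gradient RealInnerProductSpace ENNReal

variable {d : ℕ}

/-- the factor `α = τ η + ∇ log c / 2` -/
private noncomputable def al (c : E d → ℝ) (τ : ℝ) (η : E d) (x : E d) : E d :=
  τ • η + (1 / 2 : ℝ) • lg c x

/-- gradient of a product -/
private lemma grad_mul {f g : E d → ℝ} {f' g' x : E d} (hf : HasGradientAt f f' x)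
    (hg : HasGradientAt g g' x) : HasGradientAt (fun y => f y * g y) (f x • g' + g x • f') x := by
  rw [hasGradientAt_iff_hasFDerivAt] at hf hg ⊢
  refine (hf.mul hg).congr_fderiv ?_
  ext v
  simp [InnerProductSpace.toDual_apply_apply, inner_add_left, inner_smul_left]

private lemma grad_wt {c : E d → ℝ} (hc : ContDiff ℝ 1 c) (hpos : ∀ x, 0 < c x) (τ : ℝ) (η x : E d) :
    HasGradientAt (wt c τ η) (wt c τ η x • al c τ η x) x := by
  have h1 : HasGradientAt c (∇ c x) x := ((hc.differentiable (by norm_num)) x).hasGradientAt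
  have h2 : HasGradientAt (fun y => √(c y)) ((1 / (2 * √(c x))) • ∇ c x) x := by
    rw [hasGradientAt_iff_hasFDerivAt] at h1 ⊢
    refine (h1.sqrt (hpos x).ne').congr_fderiv ?_
    ext v
    simp [InnerProductSpace.toDual_apply_apply, inner_smul_left]
  have h3 : HasGradientAt (fun y => Real.exp (τ * ⟪η, y⟫)) (Real.exp (τ * ⟪η, x⟫) • (τ • η)) x := by
    rw [hasGradientAt_iff_hasFDerivAt]
    have h4 : HasFDerivAt (fun y : E d => τ * ⟪η, y⟫) (τ • innerSL ℝ η) x := by
      have h5 : HasFDerivAt (fun y : E d => ⟪η, y⟫) (innerSL ℝ η) x := (innerSL ℝ η).hasFDerivAt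
      exact h5.const_mul τ
    refine h4.exp.congr_fderiv ?_
    ext v
    simp [InnerProductSpace.toDual_apply_apply, inner_smul_left]
  have h6 := grad_mul h2 h3
  have hs : 0 < √(c x) := Real.sqrt_pos.mpr (hpos x)
  have hss : √(c x) * √(c x) = c x := Real.mul_self_sqrt (hpos x).le
  have e1 : (1 / (2 * √(c x))) = √(c x) * (1 / 2) * (c x)⁻¹ := by
    have hcx : (c x)⁻¹ = (√(c x))⁻¹ * (√(c x))⁻¹ := by rw [← mul_inv, hss]
    rw [hcx]
    field_simp
  have e2 : wt c τ η x • al c τ η x = √(c x) • (Real.exp (τ * ⟪η, x⟫) • (τ • η)) +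
      Real.exp (τ * ⟪η, x⟫) • ((1 / (2 * √(c x))) • ∇ c x) := by
    simp only [al, lg, wt]
    rw [e1]
    module
  rw [e2]
  exact h6

private lemma continuous_lg {c : E d → ℝ} (hc : ContDiff ℝ 1 c) (hpos : ∀ x, 0 < c x) :
    Continuous (lg c) := by
  have h1 : Continuous (∇ c) := continuous_grad hc
  exact (hc.continuous.inv₀ (fun x => (hpos x).ne')).smul h1

private lemma contDiff_wt {c : E d → ℝ} (hc : ContDiff ℝ 1 c) (hpos : ∀ x, 0 < c x) (τ : ℝ) (η : E d) :
    ContDiff ℝ 1 (wt c τ η) := by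
  unfold wt
  have h1 : ContDiff ℝ 1 (fun x => √(c x)) := hc.sqrt (fun x => (hpos x).ne')
  have h3 : ContDiff ℝ 1 (fun x : E d => ⟪η, x⟫) := (innerSL ℝ η).contDiff
  have h2 : ContDiff ℝ 1 (fun x : E d => Real.exp (τ * ⟪η, x⟫)) := (contDiff_const.mul h3).exp
  exact h1.mul h2

/-- tails of square integrable functions -/
private lemma tail {F : Type*} [NormedAddCommGroup F] [NormedSpace ℝ F] {f : E d → F} (hf : L2 f)
    (ε : ℝ) (hε : 0 < ε) : ∃ R₀ : ℝ, ∀ R : ℝ, R₀ ≤ R → ∀ ξ : E d → ℝ, (∀ x, |ξ x| ≤ 1) →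
    (∀ x, ‖x‖ ≤ R → ξ x = 0) → nrm (fun x => ξ x • f x) < ε := by
  have hint := integrable_sq hf
  have hlim : Tendsto (fun n : ℕ => ∫ x in (closedBall (0 : E d) n)ᶜ, ‖f x‖ ^ 2) atTop (𝓝 0) := by
    have h1 : Tendsto (fun n : ℕ => ∫ x, ((closedBall (0 : E d) n)ᶜ).indicator (fun x => ‖f x‖ ^ 2) x)
        atTop (𝓝 (∫ x : E d, (0 : ℝ))) := by
      apply tendsto_integral_of_dominated_convergence (fun x => ‖f x‖ ^ 2)
      · intro n
        exact hint.1.indicator measurableSet_closedBall.compl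
      · exact hint
      · intro n
        refine Filter.Eventually.of_forall fun x => ?_
        rw [Real.norm_eq_abs]
        by_cases hx : x ∈ (closedBall (0 : E d) n)ᶜ
        · rw [indicator_of_mem hx, abs_of_nonneg (sq_nonneg _)]
        · rw [indicator_of_notMem hx, abs_zero]
          exact sq_nonneg _
      · refine Filter.Eventually.of_forall fun x => ?_
        apply tendsto_const_nhds.congr'
        obtain ⟨N, hN⟩ := exists_nat_ge ‖x‖
        filter_upwards [eventually_ge_atTop N] with n hn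
        rw [indicator_of_notMem]
        rw [mem_compl_iff, not_not, mem_closedBall, dist_zero_right]
        exact hN.trans (by exact_mod_cast hn)
    simp only [integral_zero] at h1
    refine h1.congr fun n => ?_
    rw [integral_indicator measurableSet_closedBall.compl]
  have hev := hlim.eventually (gt_mem_nhds (show (0 : ℝ) < ε ^ 2 by positivity))
  obtain ⟨N, hN⟩ := hev.exists
  refine ⟨N, fun R hR ξ hξ1 hξ2 => ?_⟩
  have h2 : nrm (fun x => ξ x • f x) ^ 2 ≤ ∫ x in (closedBall (0 : E d) N)ᶜ, ‖f x‖ ^ 2 := by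
    rw [nrm_sq, ← integral_indicator measurableSet_closedBall.compl]
    refine integral_mono_of_nonneg (Filter.Eventually.of_forall fun x => sq_nonneg _)
      (hint.indicator measurableSet_closedBall.compl) (Filter.Eventually.of_forall fun x => ?_)
    by_cases hx : x ∈ (closedBall (0 : E d) N)ᶜ
    · simp only [indicator_of_mem hx]
      rw [norm_smul, mul_pow, Real.norm_eq_abs, sq_abs]
      have h3 : (ξ x) ^ 2 ≤ 1 := by
        rw [← sq_abs]
        exact pow_le_one₀ (abs_nonneg _) (hξ1 x)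
      nlinarith [sq_nonneg ‖f x‖]
    · simp only [indicator_of_notMem hx]
      rw [mem_compl_iff, not_not, mem_closedBall, dist_zero_right] at hx
      rw [hξ2 x (hx.trans hR)]
      simp
  have h4 : nrm (fun x => ξ x • f x) ^ 2 < ε ^ 2 := lt_of_le_of_lt h2 hN
  exact lt_of_pow_lt_pow_left₀ 2 hε.le h4

/-- MEM -/
theorem hMEM (h1 : StMEM1) (h2 : StCUT) : StMEM := by
  intro d l η B c lam Λ c0 c1 P δ M τ κ A V u G hM hC hδ hτ hκ hS hu
  obtain ⟨hf, hG⟩ := h1 d l η B c lam Λ c0 c1 P δ M τ κ A V u G hM hC hδ hτ hκ hS hu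
  have hpos : ∀ x, 0 < c x := fun x => lt_of_lt_of_le hM.c0_pos (hM.lo x)
  set f : E d → ℝ := tf c τ η u with hfdef
  set W : E d → ℝ := wt c τ η with hW
  have hWC : ContDiff ℝ 1 W := contDiff_wt hM.smooth hpos τ η
  have hWc : Continuous W := hWC.continuous
  set α : E d → E d := al c τ η with hαdef
  have hαc : Continuous α := by
    have h3 : Continuous (lg c) := continuous_lg hM.smooth hpos
    exact continuous_const.add (h3.const_smul (1 / 2 : ℝ))
  set a : ℝ := τ * ‖η‖ + P / 2 with ha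
  have ha0 : 0 ≤ a := by
    have := hM.P_nonneg
    positivity
  have hα : ∀ x, ‖α x‖ ≤ a := by
    intro x
    calc ‖α x‖ ≤ ‖τ • η‖ + ‖(1 / 2 : ℝ) • lg c x‖ := norm_add_le _ _
      _ = τ * ‖η‖ + 1 / 2 * ‖lg c x‖ := by
          rw [norm_smul, norm_smul, Real.norm_eq_abs, Real.norm_eq_abs, abs_of_nonneg hτ,
            abs_of_nonneg (by norm_num : (0 : ℝ) ≤ 1 / 2)]
      _ ≤ τ * ‖η‖ + 1 / 2 * P := by
          have := hM.bddc x
          have h4 : ‖lg c x‖ ≤ P := this
          gcongr
      _ = a := by rw [ha]; ring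
  have hfα : L2 (fun x => f x • α x) := by
    refine l2_of_le (K := a) hf (hf.1.smul hαc.aestronglyMeasurable) fun x => ?_
    rw [norm_smul, mul_comm]
    exact mul_le_mul_of_nonneg_right (hα x) (norm_nonneg _)
  set FF : E d → E d := tF c τ η u G with hFF
  have hFeq : ∀ x, FF x = W x • G x + f x • α x := by
    intro x
    simp only [hFF, tF, hfdef, tf, hW, hαdef, al]
    module
  have hF : L2 FF := by
    have e : FF = fun x => W x • G x + f x • α x := funext hFeq
    rw [e]
    exact hG.add hfα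
  refine ⟨hf, hF, fun ε hε => ?_⟩
  obtain ⟨K, hK, hcut⟩ := h2 d
  obtain ⟨R1, hR1⟩ := tail hf (ε / 2) (by positivity)
  obtain ⟨R2, hR2⟩ := tail hF (ε / 5) (by positivity)
  set R : ℝ := max 1 (max R1 (max R2 (5 * K * nrm f / ε + 1))) with hR
  have hRa : 1 ≤ R := le_max_left _ _
  have hRb : R1 ≤ R := le_trans (le_max_left _ _) (le_max_right _ _)
  have hRc : R2 ≤ R := le_trans (le_trans (le_max_left _ _) (le_max_right _ _)) (le_max_right _ _)
  have hRd : 5 * K * nrm f / ε + 1 ≤ R :=
    le_trans (le_trans (le_max_right _ _) (le_max_right _ _)) (le_max_right _ _)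
  have hR0 : 0 < R := by linarith
  obtain ⟨ζ, hζ1, hζc, hζ01, hζR, hζ2R, hζg⟩ := hcut R hRa
  have hζC : ContDiff ℝ 1 ζ := hζ1.of_le (by norm_cast)
  have hζcont : Continuous ζ := hζC.continuous
  have hζg0 : ∀ x, 2 * R ≤ ‖x‖ → ∇ ζ x = 0 := by
    intro x hx
    have hmin : IsLocalMin ζ x := by
      refine Filter.Eventually.of_forall fun y => ?_
      rw [hζ2R x hx]
      exact (hζ01 y).1
    have h3 := hmin.fderiv_eq_zero
    simp [gradient, h3]
  obtain ⟨Wm, hWm⟩ := (isCompact_closedBall (0 : E d) (2 * R)).exists_bound_of_continuousOn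
    hWc.continuousOn
  set b : ℝ := |Wm| with hb
  have hb0 : 0 ≤ b := abs_nonneg _
  have hWb : ∀ x ∈ ball (0 : E d) (2 * R), |W x| ≤ b := fun x hx =>
    (hWm x (ball_subset_closedBall hx)).trans (le_abs_self _)
  set Q : ℝ := b * (1 + a + K) + 1 with hQ
  have hQ0 : 0 < Q := by positivity
  set s : ℝ := ε / (5 * Q) with hs
  have hs0 : 0 < s := by positivity
  obtain ⟨v, hv, hv1, hv2⟩ := hS.app (2 * R) (s ^ 2) (by positivity)
  set U : Set (E d) := ball (0 : E d) (2 * R) with hU
  have hUm : MeasurableSet U := measurableSet_ball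
  haveI : IsFiniteMeasure (volume.restrict U) := ⟨by
    rw [Measure.restrict_apply_univ]; exact measure_ball_lt_top⟩
  have hvm : MemLp v 2 (volume.restrict U) := by
    obtain ⟨C', hC'⟩ := (isCompact_closedBall (0 : E d) (2 * R)).exists_bound_of_continuousOn
      hv.continuous.continuousOn
    exact MemLp.of_bound hv.continuous.aestronglyMeasurable C'
      (ae_restrict_of_forall_mem hUm fun x hx => hC' x (ball_subset_closedBall hx))
  have hgvm : MemLp (∇ v) 2 (volume.restrict U) := by
    obtain ⟨C', hC'⟩ := (isCompact_closedBall (0 : E d) (2 * R)).exists_bound_of_continuousOn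
      (continuous_grad hv).continuousOn
    exact MemLp.of_bound (continuous_grad hv).aestronglyMeasurable C'
      (ae_restrict_of_forall_mem hUm fun x hx => hC' x (ball_subset_closedBall hx))
  set Dv : E d → ℝ := U.indicator (fun x => v x - u x) with hDv
  set DG : E d → E d := U.indicator (fun x => ∇ v x - G x) with hDG
  have lDv : L2 Dv := (memLp_indicator_iff_restrict hUm).mpr (hvm.sub (hS.loc (2 * R)))
  have lDG : L2 DG := (memLp_indicator_iff_restrict hUm).mpr (hgvm.sub (hS.locG (2 * R)))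
  have nDv : nrm Dv ≤ s := by
    have h3 : nrm Dv ^ 2 ≤ s ^ 2 := by
      rw [nrm_sq]
      have e : (fun x => ‖Dv x‖ ^ 2) = U.indicator (fun x => (v x - u x) ^ 2) := by
        funext x
        by_cases hx : x ∈ U
        · simp only [hDv, indicator_of_mem hx, Real.norm_eq_abs, sq_abs]
        · simp [hDv, indicator_of_notMem hx]
      rw [e, integral_indicator hUm]
      exact hv1.le
    exact (pow_le_pow_iff_left₀ (nrm_nonneg _) hs0.le two_ne_zero).1 h3
  have nDG : nrm DG ≤ s := by
    have h3 : nrm DG ^ 2 ≤ s ^ 2 := by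
      rw [nrm_sq]
      have e : (fun x => ‖DG x‖ ^ 2) = U.indicator (fun x => ‖∇ v x - G x‖ ^ 2) := by
        funext x
        by_cases hx : x ∈ U
        · simp only [hDG, indicator_of_mem hx]
        · simp [hDG, indicator_of_notMem hx]
      rw [e, integral_indicator hUm]
      exact hv2.le
    exact (pow_le_pow_iff_left₀ (nrm_nonneg _) hs0.le two_ne_zero).1 h3
  have hζabs : ∀ x, |ζ x| ≤ 1 := fun x => by rw [abs_of_nonneg (hζ01 x).1]; exact (hζ01 x).2
  have hζabs' : ∀ x, |1 - ζ x| ≤ 1 := fun x => by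
    rw [abs_of_nonneg (by linarith [(hζ01 x).2])]; linarith [(hζ01 x).1]
  have hζR' : ∀ x, ‖x‖ ≤ R → 1 - ζ x = 0 := fun x hx => by rw [hζR x hx]; ring
  have hout : ∀ x, x ∉ U → 2 * R ≤ ‖x‖ := fun x hx => by
    rw [hU, mem_ball, dist_zero_right, not_lt] at hx
    exact hx
  have hζW : ∀ x ∈ U, |ζ x * W x| ≤ b := fun x hx => by
    rw [abs_mul]
    calc |ζ x| * |W x| ≤ 1 * b := mul_le_mul (hζabs x) (hWb x hx) (abs_nonneg _) zero_le_one
      _ = b := one_mul b
  have hζg' : ∀ x, ‖∇ ζ x‖ ≤ K := fun x => (hζg x).trans (div_le_self hK.le hRa)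
  have hsQ : b * (1 + a + K) * s ≤ ε / 5 := by
    have h3 : b * (1 + a + K) ≤ Q := by rw [hQ]; linarith
    calc b * (1 + a + K) * s ≤ Q * s := by gcongr
      _ = ε / 5 := by rw [hs]; field_simp
  refine ⟨fun x => ζ x * (W x * v x), hζC.mul (hWC.mul hv), hζc.mul_right, ?_, ?_⟩
  · -- the function
    have e : (fun x => ζ x * (W x * v x) - f x) =
        fun x => (ζ x * W x) * Dv x - (1 - ζ x) • f x := by
      funext x
      by_cases hx : x ∈ U
      · simp only [hDv, indicator_of_mem hx, smul_eq_mul, hfdef, tf, ← hW]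
        ring
      · simp only [hDv, indicator_of_notMem hx, smul_eq_mul, hζ2R x (hout x hx)]
        ring
    rw [e]
    have hb1 : ∀ x, ‖(ζ x * W x) * Dv x‖ ≤ b * ‖Dv x‖ := by
      intro x
      by_cases hx : x ∈ U
      · rw [norm_mul, Real.norm_eq_abs]
        exact mul_le_mul_of_nonneg_right (hζW x hx) (norm_nonneg _)
      · simp [hDv, indicator_of_notMem hx]
    have l1 : L2 (fun x => (ζ x * W x) * Dv x) :=
      l2_of_le (K := b) lDv ((hζcont.mul hWc).aestronglyMeasurable.mul lDv.1) hb1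
    have l2 : L2 (fun x => (1 - ζ x) • f x) := by
      refine l2_of_le (K := 1) hf ((continuous_const.sub hζcont).aestronglyMeasurable.smul hf.1) fun x => ?_
      rw [norm_smul, Real.norm_eq_abs]
      exact mul_le_mul_of_nonneg_right (hζabs' x) (norm_nonneg _)
    have n1 : nrm (fun x => (ζ x * W x) * Dv x) ≤ b * nrm Dv := nrm_le_of_le hb0 lDv hb1
    have n2 := hR1 R hRb (fun x => 1 - ζ x) hζabs' hζR'
    have n3 : b * nrm Dv ≤ ε / 5 := by
      calc b * nrm Dv ≤ b * s := by gcongr
        _ ≤ b * (1 + a + K) * s := by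
            apply mul_le_mul_of_nonneg_right _ hs0.le
            nlinarith [mul_nonneg hb0 ha0, mul_nonneg hb0 hK.le]
        _ ≤ ε / 5 := hsQ
    have n4 := nrm_sub_le l1 l2
    linarith
  · -- the gradient
    have hgr : ∀ x, ∇ (fun x => ζ x * (W x * v x)) x =
        ζ x • (W x • ∇ v x + v x • (W x • α x)) + (W x * v x) • ∇ ζ x := by
      intro x
      have g1 : HasGradientAt ζ (∇ ζ x) x := ((hζC.differentiable (by norm_num)) x).hasGradientAt
      have g2 : HasGradientAt v (∇ v x) x := ((hv.differentiable (by norm_num)) x).hasGradientAt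
      have g3 : HasGradientAt W (W x • α x) x := grad_wt hM.smooth hpos τ η x
      exact (grad_mul g1 (grad_mul g3 g2)).gradient
    have e : (fun x => ∇ (fun x => ζ x * (W x * v x)) x - FF x) =
        fun x => ((((ζ x * W x) • DG x + ((ζ x * W x) * Dv x) • α x) + (W x * Dv x) • ∇ ζ x) +
          f x • ∇ ζ x) - (1 - ζ x) • FF x := by
      funext x
      rw [hgr x, hFeq x]
      by_cases hx : x ∈ U
      · simp only [hDv, hDG, indicator_of_mem hx, hfdef, tf, ← hW]
        module
      · simp only [hDv, hDG, indicator_of_notMem hx, hζ2R x (hout x hx), hζg0 x (hout x hx)]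
        simp
    rw [e]
    have b1 : ∀ x, ‖(ζ x * W x) • DG x‖ ≤ b * ‖DG x‖ := by
      intro x
      by_cases hx : x ∈ U
      · rw [norm_smul, Real.norm_eq_abs]
        exact mul_le_mul_of_nonneg_right (hζW x hx) (norm_nonneg _)
      · simp [hDG, indicator_of_notMem hx]
    have b2 : ∀ x, ‖((ζ x * W x) * Dv x) • α x‖ ≤ (b * a) * ‖Dv x‖ := by
      intro x
      by_cases hx : x ∈ U
      · rw [norm_smul, norm_mul, Real.norm_eq_abs]
        calc |ζ x * W x| * ‖Dv x‖ * ‖α x‖ ≤ b * ‖Dv x‖ * a := by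
              apply mul_le_mul _ (hα x) (norm_nonneg _) (by positivity)
              exact mul_le_mul_of_nonneg_right (hζW x hx) (norm_nonneg _)
          _ = (b * a) * ‖Dv x‖ := by ring
      · simp [hDv, indicator_of_notMem hx]
    have b3 : ∀ x, ‖(W x * Dv x) • ∇ ζ x‖ ≤ (b * K) * ‖Dv x‖ := by
      intro x
      by_cases hx : x ∈ U
      · rw [norm_smul, norm_mul, Real.norm_eq_abs]
        calc |W x| * ‖Dv x‖ * ‖∇ ζ x‖ ≤ b * ‖Dv x‖ * K := by
              apply mul_le_mul _ (hζg' x) (norm_nonneg _) (by positivity)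
              exact mul_le_mul_of_nonneg_right (hWb x hx) (norm_nonneg _)
          _ = (b * K) * ‖Dv x‖ := by ring
      · simp [hDv, indicator_of_notMem hx]
    have b4 : ∀ x, ‖f x • ∇ ζ x‖ ≤ (K / R) * ‖f x‖ := by
      intro x
      rw [norm_smul, mul_comm]
      exact mul_le_mul_of_nonneg_right (hζg x) (norm_nonneg _)
    have hgc : Continuous (∇ ζ) := continuous_grad hζC
    have l1 : L2 (fun x => (ζ x * W x) • DG x) :=
      l2_of_le (K := b) lDG ((hζcont.mul hWc).aestronglyMeasurable.smul lDG.1) b1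
    have l2 : L2 (fun x => ((ζ x * W x) * Dv x) • α x) :=
      l2_of_le (K := b * a) lDv
        (((hζcont.mul hWc).aestronglyMeasurable.mul lDv.1).smul hαc.aestronglyMeasurable) b2
    have l3 : L2 (fun x => (W x * Dv x) • ∇ ζ x) :=
      l2_of_le (K := b * K) lDv
        ((hWc.aestronglyMeasurable.mul lDv.1).smul hgc.aestronglyMeasurable) b3
    have l4 : L2 (fun x => f x • ∇ ζ x) :=
      l2_of_le (K := K / R) hf (hf.1.smul hgc.aestronglyMeasurable) b4
    have l5 : L2 (fun x => (1 - ζ x) • FF x) := by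
      refine l2_of_le (K := 1) hF ((continuous_const.sub hζcont).aestronglyMeasurable.smul hF.1) fun x => ?_
      rw [norm_smul, Real.norm_eq_abs]
      exact mul_le_mul_of_nonneg_right (hζabs' x) (norm_nonneg _)
    have m1 := nrm_le_of_le hb0 lDG b1
    have m2 := nrm_le_of_le (by positivity) lDv b2
    have m3 := nrm_le_of_le (by positivity) lDv b3
    have m4 := nrm_le_of_le (by positivity) hf b4
    have m5 := hR2 R hRc (fun x => 1 - ζ x) hζabs' hζR'
    have l12 : L2 (fun x => (ζ x * W x) • DG x + ((ζ x * W x) * Dv x) • α x) := l1.add l2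
    have l123 : L2 (fun x => ((ζ x * W x) • DG x + ((ζ x * W x) * Dv x) • α x) +
      (W x * Dv x) • ∇ ζ x) := l12.add l3
    have l1234 : L2 (fun x => (((ζ x * W x) • DG x + ((ζ x * W x) * Dv x) • α x) +
      (W x * Dv x) • ∇ ζ x) + f x • ∇ ζ x) := l123.add l4
    have t1 := nrm_sub_le l1234 l5
    have t2 := nrm_add_le l123 l4
    have t3 := nrm_add_le l12 l3
    have t4 := nrm_add_le l1 l2
    have m4' : K / R * nrm f < ε / 5 := by
      rw [div_mul_eq_mul_div, div_lt_iff₀ hR0]
      have h3 : 5 * K * nrm f / ε < R := by linarith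
      rw [div_lt_iff₀ hε] at h3
      linarith
    have m123 : b * nrm DG + b * a * nrm Dv + b * K * nrm Dv ≤ ε / 5 := by
      calc b * nrm DG + b * a * nrm Dv + b * K * nrm Dv ≤ b * s + b * a * s + b * K * s := by gcongr
        _ = b * (1 + a + K) * s := by ring
        _ ≤ ε / 5 := hsQ
    linarith

end Pool.Agent.Helper93.SD
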